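import Pool.Agent.Helper77.SD.St

/-!
# Project SD, module CLS: classical solutions are weak solutions
-/

set_option autoImplicit false

namespace Pool.Agent.Helper63.SD

open Pool.Agent.Helper77.SD
open MeasureTheory Metric Set
open scoped Gradient RealInnerProductSpace ENNReal

private lemma grad_coord {d : ℕ} (ψ : E d → ℝ) (x : E d) (i : Fin d) :
    (∇ ψ x) i = fderiv ℝ ψ x (EuclideanSpace.single i (1 : ℝ)) := by
  rw [← inner_gradient_left, EuclideanSpace.inner_single_right]
  simp

private lemma ibp {d : ℕ} {f ψ : E d → ℝ} (hf : ContDiff ℝ 1 f) (hψ : ContDiff ℝ 1 ψ)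
    (hc : HasCompactSupport ψ) (v : E d) :
    Integrable (fun x => f x * fderiv ℝ ψ x v) ∧ Integrable (fun x => fderiv ℝ f x v * ψ x) ∧
    ∫ x, f x * fderiv ℝ ψ x v = -∫ x, fderiv ℝ f x v * ψ x := by
  have cf : Continuous fun x => fderiv ℝ f x v :=
    (hf.continuous_fderiv (by norm_num)).clm_apply continuous_const
  have cψ : Continuous fun x => fderiv ℝ ψ x v :=
    (hψ.continuous_fderiv (by norm_num)).clm_apply continuous_const
  have hc1 : HasCompactSupport fun x => fderiv ℝ ψ x v := by
    have h := hc.fderiv (𝕜 := ℝ)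
    exact h.comp_left (g := fun L : E d →L[ℝ] ℝ => L v) (by simp)
  have i1 : Integrable (fun x => f x * fderiv ℝ ψ x v) :=
    (hf.continuous.mul cψ).integrable_of_hasCompactSupport hc1.mul_left
  have i2 : Integrable (fun x => fderiv ℝ f x v * ψ x) :=
    (cf.mul hψ.continuous).integrable_of_hasCompactSupport hc.mul_left
  have i3 : Integrable (fun x => f x * ψ x) :=
    (hf.continuous.mul hψ.continuous).integrable_of_hasCompactSupport hc.mul_left
  refine ⟨i1, i2, ?_⟩
  exact integral_mul_fderiv_eq_neg_fderiv_mul_of_integrable i2 i1 i3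
    (fun x _ => hf.differentiable (by norm_num) x) (fun x _ => hψ.differentiable (by norm_num) x)

private lemma memLp_ball {d : ℕ} {F : Type*} [NormedAddCommGroup F] {f : E d → F}
    (hf : Continuous f) (R : ℝ) : MemLp f 2 (volume.restrict (ball (0 : E d) R)) := by
  obtain ⟨C, hC⟩ := (isCompact_closedBall (0 : E d) R).exists_bound_of_continuousOn hf.continuousOn
  have : IsFiniteMeasure (volume.restrict (ball (0 : E d) R)) :=
    ⟨by rw [Measure.restrict_apply_univ]; exact measure_ball_lt_top⟩
  refine MemLp.of_bound hf.aestronglyMeasurable C ?_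
  filter_upwards [ae_restrict_mem measurableSet_ball] with x hx
  exact hC x (ball_subset_closedBall hx)

private lemma contDiff_grad {d : ℕ} {u : E d → ℝ} (hu : ContDiff ℝ 2 u) : ContDiff ℝ 1 (∇ u) := by
  have h1 : ContDiff ℝ 1 (fderiv ℝ u) := hu.fderiv_right (m := 1) (by norm_num)
  exact ((InnerProductSpace.toDual ℝ (E d)).symm.contDiff).comp h1

theorem hCLS : StCLS := by
  intro d A V u hA hV hu he
  have hu1 : ContDiff ℝ 1 u := hu.of_le (by norm_num)
  have hG : ContDiff ℝ 1 (∇ u) := contDiff_grad hu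
  refine ⟨∇ u, ⟨fun R => memLp_ball hu.continuous R, fun R => memLp_ball hG.continuous R, ?_⟩, ?_⟩
  · intro ψ hψ hc i
    have hψ1 : ContDiff ℝ 1 ψ := hψ.of_le (by exact_mod_cast le_top)
    have h := (ibp hu1 hψ1 hc (EuclideanSpace.single i (1 : ℝ))).2.2
    simp only [grad_coord]
    exact h
  · intro ψ hψ hc
    have hψ1 : ContDiff ℝ 1 ψ := hψ.of_le (by exact_mod_cast le_top)
    set W : E d → E d := fun y => A y (∇ u y) with hWdef
    have hW : ContDiff ℝ 1 W := hA.clm_apply hG
    have hWi : ∀ i, ContDiff ℝ 1 (fun x => W x i) := fun i =>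
      (EuclideanSpace.proj i : E d →L[ℝ] ℝ).contDiff.comp hW
    have hd : ∀ i x v, fderiv ℝ (fun x => W x i) x v = (fderiv ℝ W x v) i := by
      intro i x v
      have h1 : HasFDerivAt W (fderiv ℝ W x) x := (hW.differentiable (by norm_num) x).hasFDerivAt
      have h2 := ((EuclideanSpace.proj i : E d →L[ℝ] ℝ).hasFDerivAt (x := W x)).comp x h1
      have h3 : fderiv ℝ (fun x => W x i) x =
          (EuclideanSpace.proj i : E d →L[ℝ] ℝ).comp (fderiv ℝ W x) := h2.fderiv
      rw [h3]
      rfl
    have e1 : ∀ x, ⟪A x (∇ u x), ∇ ψ x⟫ =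
        ∑ i, W x i * fderiv ℝ ψ x (EuclideanSpace.single i (1 : ℝ)) := by
      intro x
      rw [PiLp.inner_apply]
      refine Finset.sum_congr rfl fun i _ => ?_
      rw [← grad_coord]
      simp [hWdef, mul_comm]
    simp only [e1]
    rw [integral_finsetSum _ fun i _ => (ibp (hWi i) hψ1 hc _).1]
    have e2 : ∀ x, V x * u x * ψ x = ∑ i, -(fderiv ℝ (fun x => W x i) x
        (EuclideanSpace.single i (1 : ℝ)) * ψ x) := by
      intro x
      rw [Finset.sum_neg_distrib, ← Finset.sum_mul]
      have h1 : dv W x = ∑ i, fderiv ℝ (fun x => W x i) x (EuclideanSpace.single i (1 : ℝ)) :=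
        Finset.sum_congr rfl fun i _ => (hd i x _).symm
      rw [← h1]
      have h2 := he x
      linear_combination ψ x * h2
    simp only [e2]
    have e3 : ∀ i ∈ (Finset.univ : Finset (Fin d)), Integrable (fun x =>
        -(fderiv ℝ (fun x => W x i) x (EuclideanSpace.single i (1 : ℝ)) * ψ x)) := fun i _ =>
      (ibp (hWi i) hψ1 hc _).2.1.neg
    rw [integral_finsetSum _ e3]
    refine Finset.sum_congr rfl fun i _ => ?_
    rw [(ibp (hWi i) hψ1 hc _).2.2, integral_neg]

end Pool.Agent.Helper63.SD
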